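import Pool.Agent.MWN.StmtsH

/-!
# MWN row N1B (helper67): clause c1 of base (h) with `D 0`

The auxiliary lemmas follow the row N4C of helper24.
-/

set_option autoImplicit false

namespace Pool.Agent.MWN.H67

open Pool.Agent.Helper14_MV Pool.Agent.Helper2_MV Pool.Agent.MVO Pool.Agent.MWL Pool.Agent.MWS
  Pool.Agent.MWF

/-- two blocks -/
def b2 (x y : List ℕ) : ℕ → List ℕ := fun j => if j = 0 then x else if j = 1 then y else []

theorem ctx {β : FIC} (p q : List ℕ) {l l' m m' : List ℕ} (h : RR β l l')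
    (e : p ++ l ++ q = m) (e' : p ++ l' ++ q = m') : RR β m m' := by
  rw [← e, ← e']
  exact ((RR.refl p).append h).append (RR.refl q)

theorem tr {β : FIC} {l m n : List ℕ} (h : RR β l m) (h' : RR β m n) : RR β l n := β.trans h h'

theorem two_b2 {x y : List ℕ} (h : ∀ c ∈ x ++ y, c = 0 ∨ c = 1) : Two01 1 (b2 x y) := by
  intro j hj c hc
  have h1 : j = 0 ∨ j = 1 := by omega
  rcases h1 with rfl | rfl
  · exact h c (List.mem_append_left _ hc)
  · exact h c (List.mem_append_right _ hc)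

theorem ok_b2 {x y : List ℕ} (h : ∀ c ∈ x ++ y, c = 0 ∨ c = 1)
    (h0 : 2 ≤ deg 1 (ty (b2 x y) 0)) (h1 : 2 ≤ deg 1 (ty (b2 x y) 1)) : OkB 1 (b2 x y) := by
  refine ⟨fun j hj c hc => ?_, fun j hj c hc => ?_⟩
  · have := two_b2 h j hj c hc
    unfold NS
    omega
  · rcases two_b2 h j hj c hc with rfl | rfl
    · exact h0
    · exact h1

theorem sh_b2 {a b : ℕ → ℕ} (h : ∀ j < 2, a j = b j ∨ (2 ≤ a j ∧ 2 ≤ b j)) : Sh 1 a b :=
  fun j hj => h j (by omega)

theorem e20 {β : FIC} (hE : Oh β Bit.E) {a : ℕ → ℕ} (h : mw 1 a = [0, 0, 2])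
    (h' : mw 1 (ad 1 a 1) = [0, 0, 2, 0, 0]) : Ab 1 (FC.ofFIC β) 1 a 1 := by
  have h1 : RR β [0, 0, 2] [0, 0, 2, 0, 0] := hE
  have h3 : RR β (mw 1 a) (mw 1 (ad 1 a 1)) := by
    rw [h, h']
    exact h1
  exact h3

theorem g02 {β : FIC} (hG : Oh β Bit.G) {a : ℕ → ℕ} (h : mw 1 a = [2, 0, 0])
    (h' : mw 1 (ad 1 a 0) = [0, 0, 2, 0, 0]) : Ab 1 (FC.ofFIC β) 1 a 0 := by
  have h1 : RR β [2, 0, 0] [0, 0, 2, 0, 0] := hG
  have h3 : RR β (mw 1 a) (mw 1 (ad 1 a 0)) := by
    rw [h, h']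
    exact h1
  exact h3

/-- the states of `0101` and `1001` agree -/
theorem swp {β : FIC} (H : HB β) : RR β [0, 1, 0, 1, 2, 0, 0] [1, 0, 0, 1, 2, 0, 0] := by
  have h := H.hst 1 (b2 [0, 1, 0, 1] [0, 0]) (b2 [1, 0, 0, 1] [0, 0])
    (ok_b2 (by decide) (by decide) (by decide)) (ok_b2 (by decide) (by decide) (by decide))
    (two_b2 (by decide)) (two_b2 (by decide)) (sh_b2 (by decide)) (sh_b2 (by decide)) (by
      intro i hi hc
      have h1 : i = 0 ∨ i = 1 := by omega
      rcases h1 with rfl | rfl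
      · constructor
        · show (¬ List.Sublist [1, 0] [0, 1, 0, 1]) ↔ (¬ List.Sublist [1, 0] [1, 0, 0, 1])
          decide
        · show (¬ List.Sublist [0, 1] [0, 1, 0, 1]) ↔ (¬ List.Sublist [0, 1] [1, 0, 0, 1])
          decide
      · exfalso
        rcases hc 0 (Nat.zero_le _) (by decide) with h2 | h2
        · exact h2 (by decide)
        · exact h2 (by decide))
  exact h

theorem n1b (hp : NphStmt) (hx : NcxStmt) (ho : NcoStmt) (hd : NddStmt) : N1bStmt := by
  intro β H hi hm hD st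
  by_contra hc
  have hE : ¬ Oh β Bit.E := by
    intro hE
    apply hc
    cases st
    · exact ho β H hi 1 (b2 [0, 1, 1] [0, 0]) (b2 [1, 0, 1] [0, 0]) 1 0 1
        (ok_b2 (by decide) (by decide) (by decide)) (ok_b2 (by decide) (by decide) (by decide))
        (two_b2 (by decide)) (two_b2 (by decide)) (sh_b2 (by decide)) (sh_b2 (by decide))
        (Or.inr ⟨rfl, rfl⟩) le_rfl (by decide) (by decide) (by decide)
        (e20 hE (by decide) (by decide))
    · exact ho β H hi 1 (b2 [1, 1, 0] [0, 0]) (b2 [1, 0, 1] [0, 0]) 1 0 1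
        (ok_b2 (by decide) (by decide) (by decide)) (ok_b2 (by decide) (by decide) (by decide))
        (two_b2 (by decide)) (two_b2 (by decide)) (sh_b2 (by decide)) (sh_b2 (by decide))
        (Or.inr ⟨rfl, rfl⟩) le_rfl (by decide) (by decide) (by decide)
        (e20 hE (by decide) (by decide))
  have hG : ¬ Oh β Bit.G := by
    intro hG
    apply hc
    cases st
    · exact ho β H hi 1 (b2 [0, 1, 1] [0, 0]) (b2 [1, 0, 1] [0, 0]) 0 1 0
        (ok_b2 (by decide) (by decide) (by decide)) (ok_b2 (by decide) (by decide) (by decide))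
        (two_b2 (by decide)) (two_b2 (by decide)) (sh_b2 (by decide)) (sh_b2 (by decide))
        (Or.inl ⟨rfl, rfl⟩) (Nat.zero_le _) (by decide) (by decide) (by decide)
        (g02 hG (by decide) (by decide))
    · exact ho β H hi 1 (b2 [1, 1, 0] [0, 0]) (b2 [1, 0, 1] [0, 0]) 0 1 0
        (ok_b2 (by decide) (by decide) (by decide)) (ok_b2 (by decide) (by decide) (by decide))
        (two_b2 (by decide)) (two_b2 (by decide)) (sh_b2 (by decide)) (sh_b2 (by decide))
        (Or.inl ⟨rfl, rfl⟩) (Nat.zero_le _) (by decide) (by decide) (by decide)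
        (g02 hG (by decide) (by decide))
  have hA1 : Clo β 1 (cd2 Cd.one Cd.one) := hx β H hi [8] 1 _
    (by
      intro x hx
      simp only [List.mem_cons, List.not_mem_nil, or_false] at hx
      tauto) (by decide +kernel)
  have hB1 : Clo β 1 (cd2 Cd.two Cd.z) := hx β H hi [8, 0] 1 _
    (by
      intro x hx
      simp only [List.mem_cons, List.not_mem_nil, or_false] at hx
      tauto) (by decide +kernel)
  have hA2 : Clo β 1 (cd2 Cd.pos Cd.pos) := hx β H hi [8, 0, 2] 1 _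
    (by
      intro x hx
      simp only [List.mem_cons, List.not_mem_nil, or_false] at hx
      tauto) (by decide +kernel)
  apply hc
  rcases hp β H hi hm 1 0 (cd2 Cd.one Cd.one) (cd2 Cd.two Cd.z) (cd2 Cd.pos Cd.pos)
    (cd2 Cd.two Cd.z) st (v2 2 2) (v2 1 1) (v2 2 0) (v2 2 0) (by decide +kernel) (by decide)
    (by decide) (by decide) (by decide) hA1 hB1 hA2 hB1 with h | h
  · cases st
    · have h1 : RR β [0, 1, 1, 2, 0] [1, 0, 1, 2, 0] := h
      exact ctx [] [0] h1 rfl rfl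
    · have h1 : RR β [1, 1, 0, 2, 0] [1, 0, 1, 2, 0] := h
      exact ctx [] [0] h1 rfl rfl
  · have s9 : RR β [1, 0, 1, 2, 0, 0] [1, 0, 0, 1, 2, 0, 0] := hd β H hD [1] [1, 2] [] 0
    cases st
    · have h1 : RR β [0, 0, 1, 1, 2, 0, 0] [0, 1, 0, 1, 2, 0, 0] := h
      have s1 : RR β [0, 1, 1, 2, 0, 0] [0, 0, 1, 1, 2, 0, 0] := hd β H hD [] [1, 1, 2] [] 0
      exact tr s1 (tr h1 (tr (swp H) s9.symm))
    · have h1 : RR β [1, 1, 0, 0, 2, 0, 0] [0, 1, 0, 1, 2, 0, 0] := h
      have s1 : RR β [1, 1, 0, 2, 0, 0] [1, 1, 0, 0, 2, 0, 0] := hd β H hD [1, 1] [2] [] 0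
      exact tr s1 (tr h1 (tr (swp H) s9.symm))

end Pool.Agent.MWN.H67
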